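import Pool.Agent.helper14.NS.Q68a.PN9

/-!
Generated: certificates.
-/

namespace Pool.Agent.helper14.NS.Q68a

open Pool.Agent.helper31.IA (Z)
open Pool.Agent.helper31.IX (Op XOps runX Cov CovD cov_split covD_split)
open Pool.Agent.helper31.IC (TD)
open Pool.Agent.helper63.RG (reloc)
open Pool.Agent.helper63.NF hiding TD
open Pool.Agent.helper4.NS
open Pool.Agent.helper14.CF (xE covD_E)
open Pool.Agent.helper14.NR (share)

mutual
theorem A9_c0_t6 : CovD 1 gA9 [(13582204928, 2587885568), (137438953472, 137438953472), (68719476736, 68719476736)] :=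
  covD_E kA9_eq (.n 2 (.l 2) (.n 1 (.n 2 (.l 2) (.n 1 (.n 2 (.l 2) (.n 1 (.n 2 (.l 2) (.n 1 (.l 0) (.l 0))) (.n 0 (.l 0) (.l 0)))) (.n 0 (.l 0) (.l 0)))) (.n 0 (.l 0) (.l 0))))
    [(13582204928, 2587885568), (137438953472, 137438953472), (68719476736, 68719476736)] rfl (by decide +kernel)
theorem A9_c0_t9 : CovD 1 gA9 [(12288262144, 1293942784), (68719476736, 68719476736), (206158430208, 68719476736)] :=
  covD_E kA9_eq (.n 1 (.n 1 (.n 1 (.n 2 (.n 1 (.l 0) (.l 0)) (.l 0)) (.n 2 (.n 1 (.l 0) (.l 0)) (.l 0))) (.n 1 (.n 2 (.n 1 (.l 0) (.l 0)) (.l 0)) (.n 2 (.l 0) (.l 0)))) (.n 1 (.n 2 (.l 0) (.l 0)) (.n 1 (.l 0) (.l 0))))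
    [(12288262144, 1293942784), (68719476736, 68719476736), (206158430208, 68719476736)] rfl (by decide +kernel)
end

mutual
theorem A9_c0_t10 : CovD 1 gA9 [(12288262144, 1293942784), (206158430208, 68719476736), (206158430208, 68719476736)] :=
  covD_E kA9_eq (.n 1 (.n 0 (.l 0) (.l 0)) (.l 0))
    [(12288262144, 1293942784), (206158430208, 68719476736), (206158430208, 68719476736)] rfl (by decide +kernel)
theorem A9_c0_t12 : CovD 1 gA9 [(14876147712, 1293942784), (68719476736, 68719476736), (206158430208, 68719476736)] :=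
  covD_E kA9_eq (.n 1 (.n 1 (.n 1 (.n 2 (.n 1 (.l 0) (.l 0)) (.l 0)) (.n 2 (.n 1 (.l 0) (.l 0)) (.l 0))) (.n 1 (.n 2 (.n 1 (.l 0) (.l 0)) (.l 0)) (.n 2 (.l 0) (.l 0)))) (.n 1 (.n 2 (.l 0) (.l 0)) (.n 1 (.l 0) (.l 0))))
    [(14876147712, 1293942784), (68719476736, 68719476736), (206158430208, 68719476736)] rfl (by decide +kernel)
end

mutual
theorem A9_c0_t13 : CovD 1 gA9 [(14876147712, 1293942784), (206158430208, 68719476736), (206158430208, 68719476736)] :=
  covD_E kA9_eq (.n 1 (.n 0 (.l 0) (.l 0)) (.l 0))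
    [(14876147712, 1293942784), (206158430208, 68719476736), (206158430208, 68719476736)] rfl (by decide +kernel)
theorem A9_c0_t16 : CovD 1 gA9 [(12288262144, 1293942784), (68719476736, 68719476736), (412316860416, 137438953472)] :=
  covD_E kA9_eq (.n 1 (.n 1 (.n 2 (.n 2 (.l 0) (.l 0)) (.l 0)) (.n 2 (.n 2 (.l 0) (.l 0)) (.l 0))) (.n 1 (.n 2 (.n 1 (.l 0) (.l 0)) (.l 0)) (.n 2 (.n 0 (.l 0) (.l 0)) (.l 0))))
    [(12288262144, 1293942784), (68719476736, 68719476736), (412316860416, 137438953472)] rfl (by decide +kernel)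
end

mutual
theorem A9_c0_t17 : CovD 1 gA9 [(12288262144, 1293942784), (206158430208, 68719476736), (412316860416, 137438953472)] :=
  covD_E kA9_eq (.n 1 (.n 2 (.n 0 (.l 0) (.l 0)) (.l 0)) (.n 2 (.l 0) (.l 0)))
    [(12288262144, 1293942784), (206158430208, 68719476736), (412316860416, 137438953472)] rfl (by decide +kernel)
theorem A9_c0_t18 : CovD 1 gA9 [(14876147712, 1293942784), (137438953472, 137438953472), (412316860416, 137438953472)] :=
  covD_E kA9_eq (.n 1 (.n 1 (.n 1 (.n 2 (.n 1 (.l 0) (.l 0)) (.l 0)) (.n 2 (.n 1 (.l 0) (.l 0)) (.l 0))) (.n 1 (.n 2 (.n 1 (.l 0) (.l 0)) (.l 0)) (.n 2 (.l 0) (.l 0)))) (.n 1 (.n 2 (.n 0 (.l 0) (.l 0)) (.l 0)) (.n 2 (.l 0) (.l 0))))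
    [(14876147712, 1293942784), (137438953472, 137438953472), (412316860416, 137438953472)] rfl (by decide +kernel)
end

mutual
theorem A9_c0_t21 : CovD 1 gA9 [(12288262144, 1293942784), (137438953472, 137438953472), (687194767360, 137438953472)] :=
  covD_E kA9_eq (.n 1 (.n 1 (.n 2 (.n 0 (.l 0) (.l 0)) (.l 0)) (.n 2 (.l 0) (.l 0))) (.n 1 (.n 2 (.l 0) (.l 0)) (.n 2 (.l 0) (.l 0))))
    [(12288262144, 1293942784), (137438953472, 137438953472), (687194767360, 137438953472)] rfl (by decide +kernel)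
theorem A9_c0_t22 : CovD 1 gA9 [(14876147712, 1293942784), (137438953472, 137438953472), (687194767360, 137438953472)] :=
  covD_E kA9_eq (.n 1 (.n 1 (.n 2 (.l 0) (.l 0)) (.n 2 (.l 0) (.l 0))) (.n 1 (.n 2 (.l 0) (.l 0)) (.n 2 (.l 0) (.l 0))))
    [(14876147712, 1293942784), (137438953472, 137438953472), (687194767360, 137438953472)] rfl (by decide +kernel)
end

mutual
theorem A9_c0_t23 : CovD 1 gA9 [(13582204928, 2587885568), (137438953472, 137438953472), (962072674304, 137438953472)] :=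
  covD_E kA9_eq (.n 0 (.n 1 (.n 1 (.l 0) (.n 1 (.l 0) (.l 0))) (.n 2 (.n 0 (.l 0) (.l 0)) (.l 0))) (.n 1 (.n 1 (.l 0) (.n 0 (.l 0) (.l 0))) (.n 2 (.n 0 (.l 0) (.l 0)) (.l 0))))
    [(13582204928, 2587885568), (137438953472, 137438953472), (962072674304, 137438953472)] rfl (by decide +kernel)
theorem A9_c0_t26 : CovD 1 gA9 [(13582204928, 2587885568), (137438953472, 137438953472), (1236950581248, 137438953472)] :=
  covD_E kA9_eq (.n 0 (.n 1 (.n 0 (.l 0) (.l 0)) (.n 1 (.l 0) (.l 0))) (.n 1 (.n 0 (.l 0) (.l 0)) (.n 1 (.l 0) (.l 0))))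
    [(13582204928, 2587885568), (137438953472, 137438953472), (1236950581248, 137438953472)] rfl (by decide +kernel)
end

mutual
theorem A9_c0_t27 : CovD 1 gA9 [(13582204928, 2587885568), (137438953472, 137438953472), (1511828488192, 137438953472)] :=
  covD_E kA9_eq (.n 0 (.n 0 (.n 1 (.l 0) (.l 0)) (.n 1 (.l 0) (.l 0))) (.n 1 (.n 2 (.l 0) (.l 0)) (.n 0 (.l 0) (.n 1 (.l 0) (.l 0)))))
    [(13582204928, 2587885568), (137438953472, 137438953472), (1511828488192, 137438953472)] rfl (by decide +kernel)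
theorem A9_c0_t29 : CovD 1 gA9 [(13582204928, 2587885568), (137438953472, 137438953472), (1786706395136, 137438953472)] :=
  covD_E kA9_eq (.n 0 (.n 0 (.n 1 (.l 0) (.l 0)) (.n 1 (.l 0) (.l 0))) (.n 1 (.n 2 (.l 0) (.n 0 (.l 0) (.l 0))) (.n 0 (.n 1 (.l 0) (.l 0)) (.n 2 (.l 0) (.l 0)))))
    [(13582204928, 2587885568), (137438953472, 137438953472), (1786706395136, 137438953472)] rfl (by decide +kernel)
end

mutual
theorem A9_c0_t30 : CovD 1 gA9 [(13582204928, 2587885568), (137438953472, 137438953472), (2061584302080, 137438953472)] :=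
  covD_E kA9_eq (.n 0 (.n 1 (.n 0 (.l 0) (.n 1 (.l 0) (.l 0))) (.n 2 (.l 0) (.n 0 (.l 0) (.l 0)))) (.n 1 (.n 0 (.n 2 (.l 0) (.l 0)) (.n 2 (.l 0) (.n 1 (.l 0) (.l 0)))) (.n 2 (.n 1 (.l 0) (.l 0)) (.n 0 (.l 0) (.n 1 (.l 0) (.l 0))))))
    [(13582204928, 2587885568), (137438953472, 137438953472), (2061584302080, 137438953472)] rfl (by decide +kernel)
theorem A9_c0_t35 : CovD 1 gA9 [(12288262144, 1293942784), (137438953472, 137438953472), (2336462209024, 137438953472)] :=
  covD_E kA9_eq (.n 0 (.n 1 (.n 2 (.l 0) (.l 0)) (.n 2 (.l 0) (.l 0))) (.n 1 (.n 2 (.l 0) (.l 0)) (.n 2 (.l 0) (.n 0 (.l 0) (.l 0)))))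
    [(12288262144, 1293942784), (137438953472, 137438953472), (2336462209024, 137438953472)] rfl (by decide +kernel)
end

mutual
theorem A9_c0_t37 : CovD 1 gA9 [(14876147712, 1293942784), (68719476736, 68719476736), (2336462209024, 137438953472)] :=
  covD_E kA9_eq (.n 0 (.n 2 (.l 0) (.n 1 (.l 0) (.l 0))) (.n 2 (.n 1 (.l 0) (.l 0)) (.n 2 (.l 0) (.n 0 (.l 0) (.l 0)))))
    [(14876147712, 1293942784), (68719476736, 68719476736), (2336462209024, 137438953472)] rfl (by decide +kernel)
theorem A9_c0_t38 : CovD 1 gA9 [(14876147712, 1293942784), (206158430208, 68719476736), (2336462209024, 137438953472)] :=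
  covD_E kA9_eq (.n 1 (.n 2 (.n 2 (.l 0) (.l 0)) (.n 0 (.l 0) (.n 2 (.l 0) (.l 0)))) (.n 2 (.n 0 (.l 0) (.l 0)) (.n 2 (.l 0) (.l 0))))
    [(14876147712, 1293942784), (206158430208, 68719476736), (2336462209024, 137438953472)] rfl (by decide +kernel)
end

mutual
theorem A9_c0_t41 : CovD 1 gA9 [(11641290752, 646971392), (137438953472, 137438953472), (2611340115968, 137438953472)] :=
  covD_E kA9_eq (.n 1 (.n 2 (.n 0 (.l 0) (.l 0)) (.n 2 (.l 0) (.l 0))) (.n 2 (.n 0 (.l 0) (.l 0)) (.n 2 (.l 0) (.n 0 (.l 0) (.l 0)))))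
    [(11641290752, 646971392), (137438953472, 137438953472), (2611340115968, 137438953472)] rfl (by decide +kernel)
theorem A9_c0_t42 : CovD 1 gA9 [(12935233536, 646971392), (137438953472, 137438953472), (2611340115968, 137438953472)] :=
  covD_E kA9_eq (.n 1 (.n 2 (.n 1 (.l 0) (.l 0)) (.n 2 (.l 0) (.l 0))) (.n 2 (.n 1 (.l 0) (.l 0)) (.n 2 (.l 0) (.n 0 (.l 0) (.l 0)))))
    [(12935233536, 646971392), (137438953472, 137438953472), (2611340115968, 137438953472)] rfl (by decide +kernel)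
end

mutual
theorem A9_c0_t44 : CovD 1 gA9 [(14229176320, 646971392), (137438953472, 137438953472), (2611340115968, 137438953472)] :=
  covD_E kA9_eq (.n 1 (.n 2 (.n 2 (.l 0) (.l 0)) (.n 2 (.l 0) (.n 0 (.l 0) (.l 0)))) (.n 2 (.n 2 (.l 0) (.n 0 (.l 0) (.l 0))) (.n 0 (.n 2 (.l 0) (.l 0)) (.n 2 (.l 0) (.l 0)))))
    [(14229176320, 646971392), (137438953472, 137438953472), (2611340115968, 137438953472)] rfl (by decide +kernel)
theorem A9_c0_t45 : CovD 1 gA9 [(15523119104, 646971392), (137438953472, 137438953472), (2611340115968, 137438953472)] :=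
  covD_E kA9_eq (.n 1 (.n 1 (.n 2 (.n 2 (.l 0) (.l 0)) (.n 2 (.l 0) (.l 0))) (.n 2 (.n 2 (.l 0) (.l 0)) (.n 2 (.l 0) (.l 0)))) (.n 1 (.n 2 (.n 2 (.l 0) (.l 0)) (.n 2 (.l 0) (.l 0))) (.n 2 (.n 2 (.l 0) (.l 0)) (.n 2 (.l 0) (.l 0)))))
    [(15523119104, 646971392), (137438953472, 137438953472), (2611340115968, 137438953472)] rfl (by decide +kernel)
end

mutual
theorem A9_c0_t50 : CovD 1 gA9 [(11641290752, 646971392), (68719476736, 68719476736), (2886218022912, 137438953472)] :=
  covD_E kA9_eq (.n 1 (.n 2 (.n 2 (.l 0) (.l 0)) (.n 2 (.n 0 (.l 0) (.l 0)) (.n 2 (.l 0) (.l 0)))) (.n 2 (.n 2 (.l 0) (.l 0)) (.n 2 (.n 0 (.l 0) (.l 0)) (.n 2 (.l 0) (.l 0)))))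
    [(11641290752, 646971392), (68719476736, 68719476736), (2886218022912, 137438953472)] rfl (by decide +kernel)
theorem A9_c0_t51 : CovD 1 gA9 [(11641290752, 646971392), (206158430208, 68719476736), (2886218022912, 137438953472)] :=
  covD_E kA9_eq (.n 1 (.n 2 (.n 2 (.l 0) (.l 0)) (.n 2 (.n 0 (.l 0) (.l 0)) (.n 2 (.l 0) (.l 0)))) (.n 2 (.n 2 (.l 0) (.l 0)) (.n 2 (.l 0) (.n 0 (.l 0) (.l 0)))))
    [(11641290752, 646971392), (206158430208, 68719476736), (2886218022912, 137438953472)] rfl (by decide +kernel)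
end

mutual
theorem A9_c0_t52 : CovD 1 gA9 [(12935233536, 646971392), (137438953472, 137438953472), (2886218022912, 137438953472)] :=
  covD_E kA9_eq (.n 1 (.n 1 (.n 2 (.n 2 (.l 0) (.l 0)) (.n 2 (.l 0) (.l 0))) (.n 2 (.n 2 (.l 0) (.l 0)) (.n 2 (.l 0) (.l 0)))) (.n 1 (.n 2 (.n 2 (.l 0) (.l 0)) (.n 2 (.l 0) (.l 0))) (.n 2 (.n 2 (.l 0) (.l 0)) (.n 2 (.l 0) (.l 0)))))
    [(12935233536, 646971392), (137438953472, 137438953472), (2886218022912, 137438953472)] rfl (by decide +kernel)
theorem A9_c0_t54 : CovD 1 gA9 [(14229176320, 646971392), (137438953472, 137438953472), (2886218022912, 137438953472)] :=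
  covD_E kA9_eq (.n 1 (.n 0 (.n 2 (.n 2 (.l 0) (.l 0)) (.n 2 (.l 0) (.l 0))) (.n 2 (.n 2 (.l 0) (.l 0)) (.n 2 (.l 0) (.l 0)))) (.n 1 (.n 2 (.n 2 (.l 0) (.l 0)) (.n 2 (.l 0) (.l 0))) (.n 2 (.n 2 (.l 0) (.l 0)) (.n 2 (.l 0) (.l 0)))))
    [(14229176320, 646971392), (137438953472, 137438953472), (2886218022912, 137438953472)] rfl (by decide +kernel)
end

mutual
theorem A9_c0_t55 : CovD 1 gA9 [(15523119104, 646971392), (137438953472, 137438953472), (2886218022912, 137438953472)] :=
  covD_E kA9_eq (.n 1 (.n 1 (.n 2 (.n 2 (.l 0) (.l 0)) (.n 0 (.l 0) (.l 0))) (.n 2 (.n 2 (.l 0) (.l 0)) (.n 2 (.l 0) (.l 0)))) (.n 1 (.n 2 (.n 2 (.l 0) (.l 0)) (.n 2 (.l 0) (.l 0))) (.n 2 (.n 2 (.l 0) (.l 0)) (.n 2 (.l 0) (.l 0)))))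
    [(15523119104, 646971392), (137438953472, 137438953472), (2886218022912, 137438953472)] rfl (by decide +kernel)
theorem A9_c0_t60 : CovD 1 gA9 [(11641290752, 646971392), (68719476736, 68719476736), (3092376453120, 68719476736)] :=
  covD_E kA9_eq (.n 1 (.n 2 (.n 2 (.l 0) (.l 0)) (.n 0 (.n 2 (.l 0) (.l 0)) (.l 0))) (.n 2 (.n 2 (.l 0) (.l 0)) (.n 0 (.n 2 (.l 0) (.l 0)) (.n 0 (.l 0) (.l 0)))))
    [(11641290752, 646971392), (68719476736, 68719476736), (3092376453120, 68719476736)] rfl (by decide +kernel)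
end

mutual
theorem A9_c0_t62 : CovD 1 gA9 [(11317805056, 323485696), (68719476736, 68719476736), (3229815406592, 68719476736)] :=
  covD_E kA9_eq (.n 2 (.n 1 (.n 2 (.l 0) (.l 0)) (.n 2 (.l 0) (.l 0))) (.n 2 (.n 1 (.l 0) (.l 0)) (.n 0 (.n 2 (.n 0 (.l 0) (.l 0)) (.l 1)) (.n 2 (.n 0 (.l 0) (.l 0)) (.l 1)))))
    [(11317805056, 323485696), (68719476736, 68719476736), (3229815406592, 68719476736)] rfl (by decide +kernel)
theorem A9_c0_t63 : CovD 1 gA9 [(11964776448, 323485696), (68719476736, 68719476736), (3229815406592, 68719476736)] :=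
  covD_E kA9_eq (.n 2 (.n 1 (.l 0) (.l 0)) (.n 2 (.l 0) (.n 0 (.n 2 (.l 0) (.l 1)) (.n 2 (.l 0) (.l 1)))))
    [(11964776448, 323485696), (68719476736, 68719476736), (3229815406592, 68719476736)] rfl (by decide +kernel)
end

mutual
theorem A9_c0_t64 : CovD 1 gA9 [(12935233536, 646971392), (68719476736, 68719476736), (3161095929856, 137438953472)] :=
  covD_E kA9_eq (.n 2 (.n 1 (.n 2 (.l 0) (.l 0)) (.n 2 (.l 0) (.l 0))) (.n 2 (.n 1 (.l 0) (.l 0)) (.n 2 (.l 0) (.n 0 (.n 0 (.n 2 (.l 0) (.n 0 (.l 1) (.l 1))) (.n 0 (.l 0) (.l 0))) (.n 0 (.l 0) (.l 0))))))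
    [(12935233536, 646971392), (68719476736, 68719476736), (3161095929856, 137438953472)] rfl (by decide +kernel)
theorem A9_c0_t65 : CovD 1 gA9 [(14876147712, 1293942784), (68719476736, 68719476736), (3161095929856, 137438953472)] :=
  covD_E kA9_eq (.n 0 (.n 2 (.n 0 (.n 2 (.l 0) (.l 0)) (.n 1 (.l 0) (.l 0))) (.n 2 (.l 0) (.n 0 (.n 0 (.l 0) (.l 0)) (.l 0)))) (.n 1 (.n 2 (.l 0) (.l 0)) (.n 2 (.n 0 (.l 0) (.l 0)) (.l 0))))
    [(14876147712, 1293942784), (68719476736, 68719476736), (3161095929856, 137438953472)] rfl (by decide +kernel)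
end

mutual
theorem A9_c0_t69 : CovD 1 gA9 [(11641290752, 646971392), (206158430208, 68719476736), (3092376453120, 68719476736)] :=
  covD_E kA9_eq (.n 1 (.n 2 (.n 2 (.l 0) (.l 0)) (.n 2 (.l 0) (.n 0 (.l 0) (.l 0)))) (.n 2 (.n 0 (.l 0) (.l 0)) (.n 2 (.l 0) (.l 0))))
    [(11641290752, 646971392), (206158430208, 68719476736), (3092376453120, 68719476736)] rfl (by decide +kernel)
theorem A9_c0_t71 : CovD 1 gA9 [(11641290752, 646971392), (206158430208, 68719476736), (3195455668224, 34359738368)] :=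
  covD_E kA9_eq (.n 1 (.n 0 (.n 2 (.l 0) (.l 0)) (.l 0)) (.n 2 (.l 0) (.l 0)))
    [(11641290752, 646971392), (206158430208, 68719476736), (3195455668224, 34359738368)] rfl (by decide +kernel)
end

mutual
theorem A9_c0_t72 : CovD 1 gA9 [(11641290752, 646971392), (206158430208, 68719476736), (3264175144960, 34359738368)] :=
  covD_E kA9_eq (.n 0 (.n 2 (.n 1 (.l 0) (.l 0)) (.n 0 (.n 2 (.n 0 (.l 0) (.l 0)) (.l 1)) (.n 2 (.l 0) (.l 1)))) (.n 0 (.n 2 (.l 0) (.n 2 (.l 0) (.l 1))) (.n 2 (.l 0) (.n 2 (.l 0) (.n 0 (.l 1) (.l 1))))))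
    [(11641290752, 646971392), (206158430208, 68719476736), (3264175144960, 34359738368)] rfl (by decide +kernel)
theorem A9_c0_t73 : CovD 1 gA9 [(12935233536, 646971392), (206158430208, 68719476736), (3161095929856, 137438953472)] :=
  covD_E kA9_eq (.n 2 (.n 1 (.n 2 (.l 0) (.l 0)) (.n 2 (.l 0) (.l 0))) (.n 2 (.n 1 (.l 0) (.l 0)) (.n 0 (.n 2 (.l 0) (.n 0 (.n 2 (.l 0) (.n 0 (.l 1) (.l 1))) (.n 0 (.l 0) (.l 0)))) (.n 0 (.n 0 (.l 0) (.l 0)) (.l 0)))))
    [(12935233536, 646971392), (206158430208, 68719476736), (3161095929856, 137438953472)] rfl (by decide +kernel)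
end

mutual
theorem A9_c0_t74 : CovD 1 gA9 [(14876147712, 1293942784), (206158430208, 68719476736), (3161095929856, 137438953472)] :=
  covD_E kA9_eq (.n 1 (.n 0 (.n 2 (.n 2 (.l 0) (.l 0)) (.n 0 (.l 0) (.l 0))) (.n 2 (.n 0 (.l 0) (.l 0)) (.l 0))) (.n 0 (.n 2 (.n 2 (.l 0) (.l 0)) (.n 0 (.l 0) (.l 0))) (.n 2 (.n 0 (.l 0) (.l 0)) (.l 0))))
    [(14876147712, 1293942784), (206158430208, 68719476736), (3161095929856, 137438953472)] rfl (by decide +kernel)
theorem A9_c0_t78 : CovD 1 gA9 [(12288262144, 1293942784), (137438953472, 137438953472), (3435973836800, 137438953472)] :=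
  covD_E kA9_eq (.n 2 (.n 2 (.n 0 (.n 0 (.l 1) (.n 0 (.l 1) (.l 1))) (.n 1 (.n 0 (.l 1) (.n 0 (.l 1) (.l 1))) (.n 0 (.l 1) (.n 0 (.l 1) (.l 1))))) (.l 1)) (.l 1))
    [(12288262144, 1293942784), (137438953472, 137438953472), (3435973836800, 137438953472)] rfl (by decide +kernel)
end

mutual
theorem A9_c0_t80 : CovD 1 gA9 [(14229176320, 646971392), (137438953472, 137438953472), (3435973836800, 137438953472)] :=
  covD_E kA9_eq (.n 2 (.n 2 (.n 1 (.n 2 (.n 0 (.n 0 (.l 1) (.l 1)) (.n 2 (.n 0 (.l 0) (.l 0)) (.l 1))) (.l 1)) (.n 2 (.n 0 (.n 0 (.l 1) (.n 0 (.l 1) (.l 1))) (.n 2 (.n 0 (.l 0) (.l 0)) (.l 1))) (.l 1))) (.l 1)) (.l 1))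
    [(14229176320, 646971392), (137438953472, 137438953472), (3435973836800, 137438953472)] rfl (by decide +kernel)
theorem A9_c0_t82 : CovD 1 gA9 [(15199633408, 323485696), (137438953472, 137438953472), (3435973836800, 137438953472)] :=
  covD_E kA9_eq (.n 2 (.n 2 (.n 2 (.n 1 (.n 2 (.l 0) (.n 0 (.l 1) (.l 1))) (.n 2 (.l 0) (.n 0 (.l 1) (.l 1)))) (.l 1)) (.l 1)) (.l 1))
    [(15199633408, 323485696), (137438953472, 137438953472), (3435973836800, 137438953472)] rfl (by decide +kernel)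
end

mutual
theorem A9_c0_t83 : CovD 1 gA9 [(15846604800, 323485696), (137438953472, 137438953472), (3435973836800, 137438953472)] :=
  covD_E kA9_eq (.n 2 (.n 2 (.n 0 (.n 2 (.n 1 (.l 0) (.l 0)) (.l 1)) (.n 2 (.n 1 (.l 0) (.l 0)) (.l 1))) (.l 1)) (.l 1))
    [(15846604800, 323485696), (137438953472, 137438953472), (3435973836800, 137438953472)] rfl (by decide +kernel)
theorem A9_c0_t84 : CovD 1 gA9 [(13582204928, 2587885568), (137438953472, 137438953472), (3710851743744, 137438953472)] :=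
  covD_E kA9_eq (.n 0 (.l 1) (.l 1))
    [(13582204928, 2587885568), (137438953472, 137438953472), (3710851743744, 137438953472)] rfl (by decide +kernel)
end

mutual
theorem A9_c0_t85 : CovD 1 gA9 [(13582204928, 2587885568), (137438953472, 137438953472), (4123168604160, 274877906944)] :=
  covD_E kA9_eq (.l 1)
    [(13582204928, 2587885568), (137438953472, 137438953472), (4123168604160, 274877906944)] rfl (by decide +kernel)
theorem A9_c0_t86 : CovD 1 gA9 [(13582204928, 2587885568), (137438953472, 137438953472), (6597069766656, 2199023255552)] :=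
  covD_E kA9_eq (.n 2 (.n 2 (.n 2 (.l 1) (.l 1)) (.n 2 (.l 1) (.l 1))) (.n 2 (.l 1) (.l 1)))
    [(13582204928, 2587885568), (137438953472, 137438953472), (6597069766656, 2199023255552)] rfl (by decide +kernel)
end

mutual
theorem B9_c0_t1 : CovD 1 gB9 [(13582204928, 2587885568), (137438953472, 137438953472), (34359738368, 34359738368)] :=
  covD_E kB9_eq (.n 0 (.n 2 (.n 2 (.n 2 (.l 1) (.l 1)) (.n 2 (.l 1) (.l 1))) (.n 2 (.n 0 (.l 1) (.l 1)) (.l 1))) (.n 2 (.n 0 (.n 2 (.l 1) (.l 1)) (.n 2 (.l 1) (.l 1))) (.n 2 (.l 1) (.l 1))))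
    [(13582204928, 2587885568), (137438953472, 137438953472), (34359738368, 34359738368)] rfl (by decide +kernel)
theorem B9_c0_t2 : CovD 1 gB9 [(13582204928, 2587885568), (137438953472, 137438953472), (103079215104, 34359738368)] :=
  covD_E kB9_eq (.n 2 (.n 0 (.n 2 (.l 1) (.l 1)) (.n 2 (.l 1) (.l 1))) (.n 2 (.n 0 (.l 1) (.l 1)) (.l 1)))
    [(13582204928, 2587885568), (137438953472, 137438953472), (103079215104, 34359738368)] rfl (by decide +kernel)
end

mutual
theorem C9_c0_t4 : CovD 1 gC9 [(12288262144, 1293942784), (17179869184, 17179869184), (549755813888, 549755813888)] :=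
  covD_E kC9_eq (.n 2 (.n 2 (.n 2 (.l 0) (.l 0)) (.n 2 (.l 0) (.l 0))) (.n 1 (.n 2 (.n 1 (.l 0) (.l 0)) (.n 2 (.l 0) (.n 2 (.l 0) (.n 2 (.l 0) (.n 2 (.l 0) (.n 2 (.l 0) (.n 2 (.l 0) (.l 1)))))))) (.n 2 (.l 0) (.l 0))))
    [(12288262144, 1293942784), (17179869184, 17179869184), (549755813888, 549755813888)] rfl (by decide +kernel)
theorem C9_c0_t5 : CovD 1 gC9 [(12288262144, 1293942784), (51539607552, 17179869184), (549755813888, 549755813888)] :=
  covD_E kC9_eq (.n 2 (.n 2 (.l 0) (.l 0)) (.n 2 (.l 0) (.l 0)))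
    [(12288262144, 1293942784), (51539607552, 17179869184), (549755813888, 549755813888)] rfl (by decide +kernel)
end

mutual
theorem C9_c0_t6 : CovD 1 gC9 [(12288262144, 1293942784), (103079215104, 34359738368), (549755813888, 549755813888)] :=
  covD_E kC9_eq (.n 2 (.n 2 (.l 0) (.l 0)) (.n 2 (.l 0) (.l 0)))
    [(12288262144, 1293942784), (103079215104, 34359738368), (549755813888, 549755813888)] rfl (by decide +kernel)
theorem C9_c0_t7 : CovD 1 gC9 [(12288262144, 1293942784), (206158430208, 68719476736), (549755813888, 549755813888)] :=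
  covD_E kC9_eq (.n 2 (.n 2 (.l 0) (.l 0)) (.n 2 (.l 0) (.l 0)))
    [(12288262144, 1293942784), (206158430208, 68719476736), (549755813888, 549755813888)] rfl (by decide +kernel)
end

mutual
theorem C9_c0_t11 : CovD 1 gC9 [(14876147712, 1293942784), (17179869184, 17179869184), (549755813888, 549755813888)] :=
  covD_E kC9_eq (.n 2 (.n 2 (.n 2 (.l 0) (.l 0)) (.n 2 (.l 0) (.l 0))) (.n 1 (.n 1 (.n 2 (.l 0) (.n 2 (.l 0) (.n 2 (.l 0) (.n 2 (.l 0) (.n 2 (.l 0) (.n 2 (.l 0) (.l 1))))))) (.n 2 (.l 0) (.l 0))) (.n 2 (.l 0) (.l 0))))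
    [(14876147712, 1293942784), (17179869184, 17179869184), (549755813888, 549755813888)] rfl (by decide +kernel)
theorem C9_c0_t12 : CovD 1 gC9 [(14876147712, 1293942784), (51539607552, 17179869184), (549755813888, 549755813888)] :=
  covD_E kC9_eq (.n 2 (.n 2 (.l 0) (.l 0)) (.n 2 (.l 0) (.l 0)))
    [(14876147712, 1293942784), (51539607552, 17179869184), (549755813888, 549755813888)] rfl (by decide +kernel)
end

mutual
theorem C9_c0_t13 : CovD 1 gC9 [(14876147712, 1293942784), (103079215104, 34359738368), (549755813888, 549755813888)] :=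
  covD_E kC9_eq (.n 2 (.n 2 (.l 0) (.l 0)) (.n 2 (.l 0) (.l 0)))
    [(14876147712, 1293942784), (103079215104, 34359738368), (549755813888, 549755813888)] rfl (by decide +kernel)
theorem C9_c0_t14 : CovD 1 gC9 [(14876147712, 1293942784), (206158430208, 68719476736), (549755813888, 549755813888)] :=
  covD_E kC9_eq (.n 2 (.n 2 (.l 0) (.l 0)) (.n 2 (.l 0) (.l 0)))
    [(14876147712, 1293942784), (206158430208, 68719476736), (549755813888, 549755813888)] rfl (by decide +kernel)
end

mutual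
theorem D9_c0_t1 : CovD 1 gD9 [(13582204928, 2587885568), (137438953472, 137438953472), (431805169664, 431805169664)] :=
  covD_E kD9_eq (.n 2 (.n 2 (.n 2 (.l 0) (.l 0)) (.n 2 (.l 0) (.l 0))) (.n 2 (.n 2 (.l 0) (.l 0)) (.n 2 (.l 0) (.l 0))))
    [(13582204928, 2587885568), (137438953472, 137438953472), (431805169664, 431805169664)] rfl (by decide +kernel)
theorem D9_c0_t2 : CovD 1 gD9 [(13582204928, 2587885568), (137438953472, 137438953472), (1295415508992, 431805169664)] :=
  covD_E kD9_eq (.n 2 (.n 2 (.n 2 (.l 0) (.l 0)) (.n 2 (.l 0) (.l 0))) (.n 2 (.n 2 (.n 0 (.l 0) (.l 0)) (.n 2 (.l 0) (.l 0))) (.n 2 (.n 2 (.l 0) (.l 0)) (.n 2 (.l 0) (.l 0)))))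
    [(13582204928, 2587885568), (137438953472, 137438953472), (1295415508992, 431805169664)] rfl (by decide +kernel)
end

theorem A9_c0_t8 : CovD 1 gA9 [(12288262144, 1293942784), (137438953472, 137438953472), (206158430208, 68719476736)] :=
  covD_split 1 (by decide +kernel) A9_c0_t9 A9_c0_t10

theorem A9_c0_t11 : CovD 1 gA9 [(14876147712, 1293942784), (137438953472, 137438953472), (206158430208, 68719476736)] :=
  covD_split 1 (by decide +kernel) A9_c0_t12 A9_c0_t13

theorem A9_c0_t7 : CovD 1 gA9 [(13582204928, 2587885568), (137438953472, 137438953472), (206158430208, 68719476736)] :=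
  covD_split 0 (by decide +kernel) A9_c0_t8 A9_c0_t11

theorem A9_c0_t5 : CovD 1 gA9 [(13582204928, 2587885568), (137438953472, 137438953472), (137438953472, 137438953472)] :=
  covD_split 2 (by decide +kernel) A9_c0_t6 A9_c0_t7

theorem A9_c0_t15 : CovD 1 gA9 [(12288262144, 1293942784), (137438953472, 137438953472), (412316860416, 137438953472)] :=
  covD_split 1 (by decide +kernel) A9_c0_t16 A9_c0_t17

theorem A9_c0_t14 : CovD 1 gA9 [(13582204928, 2587885568), (137438953472, 137438953472), (412316860416, 137438953472)] :=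
  covD_split 0 (by decide +kernel) A9_c0_t15 A9_c0_t18

theorem A9_c0_t4 : CovD 1 gA9 [(13582204928, 2587885568), (137438953472, 137438953472), (274877906944, 274877906944)] :=
  covD_split 2 (by decide +kernel) A9_c0_t5 A9_c0_t14

theorem A9_c0_t20 : CovD 1 gA9 [(13582204928, 2587885568), (137438953472, 137438953472), (687194767360, 137438953472)] :=
  covD_split 0 (by decide +kernel) A9_c0_t21 A9_c0_t22

theorem A9_c0_t19 : CovD 1 gA9 [(13582204928, 2587885568), (137438953472, 137438953472), (824633720832, 274877906944)] :=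
  covD_split 2 (by decide +kernel) A9_c0_t20 A9_c0_t23

theorem A9_c0_t3 : CovD 1 gA9 [(13582204928, 2587885568), (137438953472, 137438953472), (549755813888, 549755813888)] :=
  covD_split 2 (by decide +kernel) A9_c0_t4 A9_c0_t19

theorem A9_c0_t25 : CovD 1 gA9 [(13582204928, 2587885568), (137438953472, 137438953472), (1374389534720, 274877906944)] :=
  covD_split 2 (by decide +kernel) A9_c0_t26 A9_c0_t27

theorem A9_c0_t28 : CovD 1 gA9 [(13582204928, 2587885568), (137438953472, 137438953472), (1924145348608, 274877906944)] :=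
  covD_split 2 (by decide +kernel) A9_c0_t29 A9_c0_t30

theorem A9_c0_t24 : CovD 1 gA9 [(13582204928, 2587885568), (137438953472, 137438953472), (1649267441664, 549755813888)] :=
  covD_split 2 (by decide +kernel) A9_c0_t25 A9_c0_t28

theorem A9_c0_t2 : CovD 1 gA9 [(13582204928, 2587885568), (137438953472, 137438953472), (1099511627776, 1099511627776)] :=
  covD_split 2 (by decide +kernel) A9_c0_t3 A9_c0_t24

theorem A9_c0_t36 : CovD 1 gA9 [(14876147712, 1293942784), (137438953472, 137438953472), (2336462209024, 137438953472)] :=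
  covD_split 1 (by decide +kernel) A9_c0_t37 A9_c0_t38

theorem A9_c0_t34 : CovD 1 gA9 [(13582204928, 2587885568), (137438953472, 137438953472), (2336462209024, 137438953472)] :=
  covD_split 0 (by decide +kernel) A9_c0_t35 A9_c0_t36

theorem A9_c0_t40 : CovD 1 gA9 [(12288262144, 1293942784), (137438953472, 137438953472), (2611340115968, 137438953472)] :=
  covD_split 0 (by decide +kernel) A9_c0_t41 A9_c0_t42

theorem A9_c0_t43 : CovD 1 gA9 [(14876147712, 1293942784), (137438953472, 137438953472), (2611340115968, 137438953472)] :=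
  covD_split 0 (by decide +kernel) A9_c0_t44 A9_c0_t45

theorem A9_c0_t39 : CovD 1 gA9 [(13582204928, 2587885568), (137438953472, 137438953472), (2611340115968, 137438953472)] :=
  covD_split 0 (by decide +kernel) A9_c0_t40 A9_c0_t43

theorem A9_c0_t33 : CovD 1 gA9 [(13582204928, 2587885568), (137438953472, 137438953472), (2473901162496, 274877906944)] :=
  covD_split 2 (by decide +kernel) A9_c0_t34 A9_c0_t39

theorem A9_c0_t49 : CovD 1 gA9 [(11641290752, 646971392), (137438953472, 137438953472), (2886218022912, 137438953472)] :=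
  covD_split 1 (by decide +kernel) A9_c0_t50 A9_c0_t51

theorem A9_c0_t48 : CovD 1 gA9 [(12288262144, 1293942784), (137438953472, 137438953472), (2886218022912, 137438953472)] :=
  covD_split 0 (by decide +kernel) A9_c0_t49 A9_c0_t52

theorem A9_c0_t53 : CovD 1 gA9 [(14876147712, 1293942784), (137438953472, 137438953472), (2886218022912, 137438953472)] :=
  covD_split 0 (by decide +kernel) A9_c0_t54 A9_c0_t55

theorem A9_c0_t47 : CovD 1 gA9 [(13582204928, 2587885568), (137438953472, 137438953472), (2886218022912, 137438953472)] :=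
  covD_split 0 (by decide +kernel) A9_c0_t48 A9_c0_t53

theorem A9_c0_t61 : CovD 1 gA9 [(11641290752, 646971392), (68719476736, 68719476736), (3229815406592, 68719476736)] :=
  covD_split 0 (by decide +kernel) A9_c0_t62 A9_c0_t63

theorem A9_c0_t59 : CovD 1 gA9 [(11641290752, 646971392), (68719476736, 68719476736), (3161095929856, 137438953472)] :=
  covD_split 2 (by decide +kernel) A9_c0_t60 A9_c0_t61

theorem A9_c0_t58 : CovD 1 gA9 [(12288262144, 1293942784), (68719476736, 68719476736), (3161095929856, 137438953472)] :=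
  covD_split 0 (by decide +kernel) A9_c0_t59 A9_c0_t64

theorem A9_c0_t57 : CovD 1 gA9 [(13582204928, 2587885568), (68719476736, 68719476736), (3161095929856, 137438953472)] :=
  covD_split 0 (by decide +kernel) A9_c0_t58 A9_c0_t65

theorem A9_c0_t70 : CovD 1 gA9 [(11641290752, 646971392), (206158430208, 68719476736), (3229815406592, 68719476736)] :=
  covD_split 2 (by decide +kernel) A9_c0_t71 A9_c0_t72

theorem A9_c0_t68 : CovD 1 gA9 [(11641290752, 646971392), (206158430208, 68719476736), (3161095929856, 137438953472)] :=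
  covD_split 2 (by decide +kernel) A9_c0_t69 A9_c0_t70

theorem A9_c0_t67 : CovD 1 gA9 [(12288262144, 1293942784), (206158430208, 68719476736), (3161095929856, 137438953472)] :=
  covD_split 0 (by decide +kernel) A9_c0_t68 A9_c0_t73

theorem A9_c0_t66 : CovD 1 gA9 [(13582204928, 2587885568), (206158430208, 68719476736), (3161095929856, 137438953472)] :=
  covD_split 0 (by decide +kernel) A9_c0_t67 A9_c0_t74

theorem A9_c0_t56 : CovD 1 gA9 [(13582204928, 2587885568), (137438953472, 137438953472), (3161095929856, 137438953472)] :=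
  covD_split 1 (by decide +kernel) A9_c0_t57 A9_c0_t66

theorem A9_c0_t46 : CovD 1 gA9 [(13582204928, 2587885568), (137438953472, 137438953472), (3023656976384, 274877906944)] :=
  covD_split 2 (by decide +kernel) A9_c0_t47 A9_c0_t56

theorem A9_c0_t32 : CovD 1 gA9 [(13582204928, 2587885568), (137438953472, 137438953472), (2748779069440, 549755813888)] :=
  covD_split 2 (by decide +kernel) A9_c0_t33 A9_c0_t46

theorem A9_c0_t81 : CovD 1 gA9 [(15523119104, 646971392), (137438953472, 137438953472), (3435973836800, 137438953472)] :=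
  covD_split 0 (by decide +kernel) A9_c0_t82 A9_c0_t83

theorem A9_c0_t79 : CovD 1 gA9 [(14876147712, 1293942784), (137438953472, 137438953472), (3435973836800, 137438953472)] :=
  covD_split 0 (by decide +kernel) A9_c0_t80 A9_c0_t81

theorem A9_c0_t77 : CovD 1 gA9 [(13582204928, 2587885568), (137438953472, 137438953472), (3435973836800, 137438953472)] :=
  covD_split 0 (by decide +kernel) A9_c0_t78 A9_c0_t79

theorem A9_c0_t76 : CovD 1 gA9 [(13582204928, 2587885568), (137438953472, 137438953472), (3573412790272, 274877906944)] :=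
  covD_split 2 (by decide +kernel) A9_c0_t77 A9_c0_t84

theorem A9_c0_t75 : CovD 1 gA9 [(13582204928, 2587885568), (137438953472, 137438953472), (3848290697216, 549755813888)] :=
  covD_split 2 (by decide +kernel) A9_c0_t76 A9_c0_t85

theorem A9_c0_t31 : CovD 1 gA9 [(13582204928, 2587885568), (137438953472, 137438953472), (3298534883328, 1099511627776)] :=
  covD_split 2 (by decide +kernel) A9_c0_t32 A9_c0_t75

theorem A9_c0_t1 : CovD 1 gA9 [(13582204928, 2587885568), (137438953472, 137438953472), (2199023255552, 2199023255552)] :=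
  covD_split 2 (by decide +kernel) A9_c0_t2 A9_c0_t31

theorem A9_c0 : CovD 1 gA9 [(13582204928, 2587885568), (137438953472, 137438953472), (4398046511104, 4398046511104)] :=
  covD_split 2 (by decide +kernel) A9_c0_t1 A9_c0_t86

theorem B9_c0 : CovD 1 gB9 [(13582204928, 2587885568), (137438953472, 137438953472), (68719476736, 68719476736)] :=
  covD_split 2 (by decide +kernel) B9_c0_t1 B9_c0_t2

theorem C9_c0_t3 : CovD 1 gC9 [(12288262144, 1293942784), (34359738368, 34359738368), (549755813888, 549755813888)] :=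
  covD_split 1 (by decide +kernel) C9_c0_t4 C9_c0_t5

theorem C9_c0_t2 : CovD 1 gC9 [(12288262144, 1293942784), (68719476736, 68719476736), (549755813888, 549755813888)] :=
  covD_split 1 (by decide +kernel) C9_c0_t3 C9_c0_t6

theorem C9_c0_t1 : CovD 1 gC9 [(12288262144, 1293942784), (137438953472, 137438953472), (549755813888, 549755813888)] :=
  covD_split 1 (by decide +kernel) C9_c0_t2 C9_c0_t7

theorem C9_c0_t10 : CovD 1 gC9 [(14876147712, 1293942784), (34359738368, 34359738368), (549755813888, 549755813888)] :=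
  covD_split 1 (by decide +kernel) C9_c0_t11 C9_c0_t12

theorem C9_c0_t9 : CovD 1 gC9 [(14876147712, 1293942784), (68719476736, 68719476736), (549755813888, 549755813888)] :=
  covD_split 1 (by decide +kernel) C9_c0_t10 C9_c0_t13

theorem C9_c0_t8 : CovD 1 gC9 [(14876147712, 1293942784), (137438953472, 137438953472), (549755813888, 549755813888)] :=
  covD_split 1 (by decide +kernel) C9_c0_t9 C9_c0_t14

theorem C9_c0 : CovD 1 gC9 [(13582204928, 2587885568), (137438953472, 137438953472), (549755813888, 549755813888)] :=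
  covD_split 0 (by decide +kernel) C9_c0_t1 C9_c0_t8

theorem D9_c0 : CovD 1 gD9 [(13582204928, 2587885568), (137438953472, 137438953472), (863610339328, 863610339328)] :=
  covD_split 2 (by decide +kernel) D9_c0_t1 D9_c0_t2

end Pool.Agent.helper14.NS.Q68a
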