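import Pool.Agent.helper14.NS.Q68a.PN9

/-!
Generated: certificates.
-/

namespace Pool.Agent.helper14.NS.Q68a

open Pool.Agent.helper31.IA (Z)
open Pool.Agent.helper31.IX (Op XOps runX Cov CovD cov_split covD_split)
open Pool.Agent.helper31.IC (TD)
open Pool.Agent.helper63.RG (reloc)
open Pool.Agent.helper63.NF hiding TD
open Pool.Agent.helper4.NS
open Pool.Agent.helper14.CF (xE covD_E)
open Pool.Agent.helper14.NR (share)

mutual
theorem E9_c0_t3 : CovD 1 gE9 [(13582204928, 2587885568), (137438953472, 137438953472), (107951292416, 107951292416)] :=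
  covD_E kE9_eq (.l 1)
    [(13582204928, 2587885568), (137438953472, 137438953472), (107951292416, 107951292416)] rfl (by decide +kernel)
theorem E9_c0_t5 : CovD 1 gE9 [(13582204928, 2587885568), (137438953472, 137438953472), (269878231040, 53975646208)] :=
  covD_E kE9_eq (.l 1)
    [(13582204928, 2587885568), (137438953472, 137438953472), (269878231040, 53975646208)] rfl (by decide +kernel)
end

mutual
theorem E9_c0_t7 : CovD 1 gE9 [(13582204928, 2587885568), (137438953472, 137438953472), (350841700352, 26987823104)] :=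
  covD_E kE9_eq (.n 0 (.n 0 (.n 2 (.n 0 (.n 1 (.n 2 (.l 1) (.n 1 (.l 0) (.l 0))) (.n 1 (.n 2 (.l 1) (.l 0)) (.l 0))) (.l 1)) (.n 1 (.n 0 (.l 0) (.l 0)) (.n 1 (.l 0) (.l 0)))) (.n 1 (.l 1) (.l 1))) (.l 1))
    [(13582204928, 2587885568), (137438953472, 137438953472), (350841700352, 26987823104)] rfl (by decide +kernel)
theorem E9_c0_t8 : CovD 1 gE9 [(13582204928, 2587885568), (137438953472, 137438953472), (404817346560, 26987823104)] :=
  covD_E kE9_eq (.n 0 (.n 1 (.n 2 (.n 0 (.l 0) (.l 0)) (.l 0)) (.n 2 (.n 0 (.l 0) (.l 0)) (.l 0))) (.n 0 (.n 2 (.l 1) (.n 1 (.l 0) (.l 0))) (.l 1)))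
    [(13582204928, 2587885568), (137438953472, 137438953472), (404817346560, 26987823104)] rfl (by decide +kernel)
end

mutual
theorem E9_c0_t12 : CovD 1 gE9 [(13582204928, 2587885568), (137438953472, 137438953472), (458792992768, 26987823104)] :=
  covD_E kE9_eq (.n 0 (.n 1 (.n 2 (.l 0) (.l 0)) (.n 2 (.l 0) (.l 0))) (.n 1 (.n 2 (.n 0 (.l 0) (.l 0)) (.l 0)) (.n 2 (.n 1 (.l 0) (.l 0)) (.l 0))))
    [(13582204928, 2587885568), (137438953472, 137438953472), (458792992768, 26987823104)] rfl (by decide +kernel)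
theorem E9_c0_t13 : CovD 1 gE9 [(13582204928, 2587885568), (137438953472, 137438953472), (512768638976, 26987823104)] :=
  covD_E kE9_eq (.n 0 (.n 2 (.n 0 (.l 0) (.l 0)) (.l 0)) (.n 1 (.n 2 (.l 0) (.l 0)) (.n 2 (.l 0) (.l 0))))
    [(13582204928, 2587885568), (137438953472, 137438953472), (512768638976, 26987823104)] rfl (by decide +kernel)
end

mutual
theorem E9_c0_t14 : CovD 1 gE9 [(13582204928, 2587885568), (137438953472, 137438953472), (593732108288, 53975646208)] :=
  covD_E kE9_eq (.n 2 (.n 0 (.n 2 (.l 0) (.l 0)) (.n 0 (.n 2 (.l 0) (.l 0)) (.n 0 (.l 0) (.l 0)))) (.n 0 (.n 2 (.l 0) (.l 0)) (.n 2 (.l 0) (.l 0))))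
    [(13582204928, 2587885568), (137438953472, 137438953472), (593732108288, 53975646208)] rfl (by decide +kernel)
theorem E9_c0_t15 : CovD 1 gE9 [(13582204928, 2587885568), (137438953472, 137438953472), (755659046912, 107951292416)] :=
  covD_E kE9_eq (.n 2 (.n 2 (.n 0 (.n 2 (.l 0) (.l 0)) (.n 0 (.l 0) (.l 0))) (.n 0 (.n 2 (.l 0) (.l 0)) (.l 0))) (.n 2 (.n 0 (.n 0 (.l 0) (.l 0)) (.l 0)) (.n 0 (.n 0 (.l 0) (.l 0)) (.l 0))))
    [(13582204928, 2587885568), (137438953472, 137438953472), (755659046912, 107951292416)] rfl (by decide +kernel)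
end

mutual
theorem E9_c0_t17 : CovD 1 gE9 [(13582204928, 2587885568), (137438953472, 137438953472), (1079512924160, 215902584832)] :=
  covD_E kE9_eq (.n 2 (.n 2 (.n 2 (.n 0 (.l 0) (.l 0)) (.n 0 (.l 0) (.l 0))) (.n 2 (.n 0 (.l 0) (.l 0)) (.n 0 (.l 0) (.l 0)))) (.n 2 (.n 2 (.n 0 (.l 0) (.l 0)) (.n 0 (.l 0) (.l 0))) (.n 2 (.n 0 (.l 0) (.l 0)) (.n 0 (.l 0) (.l 0)))))
    [(13582204928, 2587885568), (137438953472, 137438953472), (1079512924160, 215902584832)] rfl (by decide +kernel)
theorem E9_c0_t18 : CovD 1 gE9 [(13582204928, 2587885568), (137438953472, 137438953472), (1511318093824, 215902584832)] :=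
  covD_E kE9_eq (.n 2 (.n 2 (.n 2 (.l 0) (.l 0)) (.n 2 (.l 0) (.l 0))) (.n 2 (.n 2 (.l 0) (.l 0)) (.n 2 (.l 0) (.l 0))))
    [(13582204928, 2587885568), (137438953472, 137438953472), (1511318093824, 215902584832)] rfl (by decide +kernel)
end

theorem E9_c0_t6 : CovD 1 gE9 [(13582204928, 2587885568), (137438953472, 137438953472), (377829523456, 53975646208)] :=
  covD_split 2 (by decide +kernel) E9_c0_t7 E9_c0_t8

theorem E9_c0_t4 : CovD 1 gE9 [(13582204928, 2587885568), (137438953472, 137438953472), (323853877248, 107951292416)] :=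
  covD_split 2 (by decide +kernel) E9_c0_t5 E9_c0_t6

theorem E9_c0_t2 : CovD 1 gE9 [(13582204928, 2587885568), (137438953472, 137438953472), (215902584832, 215902584832)] :=
  covD_split 2 (by decide +kernel) E9_c0_t3 E9_c0_t4

theorem E9_c0_t11 : CovD 1 gE9 [(13582204928, 2587885568), (137438953472, 137438953472), (485780815872, 53975646208)] :=
  covD_split 2 (by decide +kernel) E9_c0_t12 E9_c0_t13

theorem E9_c0_t10 : CovD 1 gE9 [(13582204928, 2587885568), (137438953472, 137438953472), (539756462080, 107951292416)] :=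
  covD_split 2 (by decide +kernel) E9_c0_t11 E9_c0_t14

theorem E9_c0_t9 : CovD 1 gE9 [(13582204928, 2587885568), (137438953472, 137438953472), (647707754496, 215902584832)] :=
  covD_split 2 (by decide +kernel) E9_c0_t10 E9_c0_t15

theorem E9_c0_t1 : CovD 1 gE9 [(13582204928, 2587885568), (137438953472, 137438953472), (431805169664, 431805169664)] :=
  covD_split 2 (by decide +kernel) E9_c0_t2 E9_c0_t9

theorem E9_c0_t16 : CovD 1 gE9 [(13582204928, 2587885568), (137438953472, 137438953472), (1295415508992, 431805169664)] :=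
  covD_split 2 (by decide +kernel) E9_c0_t17 E9_c0_t18

theorem E9_c0 : CovD 1 gE9 [(13582204928, 2587885568), (137438953472, 137438953472), (863610339328, 863610339328)] :=
  covD_split 2 (by decide +kernel) E9_c0_t1 E9_c0_t16

end Pool.Agent.helper14.NS.Q68a
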